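import Mathlib
import Pool.Agent.R691.Heights
import Pool.Agent.R691.SqGroup2

/-!
# MP_1abb56_al: a transitive group whose square is not weakly transitive

Attach to every prime `p` a polynomial `x_p ∈ ℤ[X]` such that every polynomial is attached to
infinitely many primes, and let `G ⊆ ℚ[X]` be the group generated by `ℤ[X]` and all `e x_p / p`
(`e ∈ ℤ[X]`). The endomorphisms of `G` are the multiplications by the elements of `ℤ[X]`, and two
elements with the same characteristic are equal up to sign. In `G ⊕ G` the elements `(X, 5)` and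
`(2X, 5)` are mapped to each other by endomorphisms, but not by an automorphism, because an
invertible matrix over `ℤ[X]` cannot have determinant congruent to `2` modulo `(X, 5)`.
-/

set_option autoImplicit false

open Polynomial

namespace Pool.Agent.Results.MP_1abb56_al.SquareNotWeaklyTransitive

open Pool.Agent.R691.Heights Pool.Agent.R691.SqGroup

theorem exists_assignment : ∃ x : ℕ → ℤ[X], ∀ e : ℤ[X], {p : ℕ | p.Prime ∧ x p = e}.Infinite := by
  have hcount : Countable ℤ[X] := by
    refine Cardinal.mk_le_aleph0_iff.1 (Polynomial.cardinalMk_le_max.trans ?_)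
    simp
  obtain ⟨s, hs⟩ := exists_surjective_nat (ℤ[X] × ℕ)
  refine ⟨fun p => (s (Nat.count Nat.Prime p)).1, fun e => ?_⟩
  choose n hn using fun j : ℕ => hs (e, j)
  have hinj : Function.Injective (fun j => Nat.nth Nat.Prime (n j)) := by
    intro i j hij
    have h1 : n i = n j := Nat.nth_injective Nat.infinite_setOfPred_prime hij
    have h2 := hn i
    rw [h1, hn j] at h2
    exact (Prod.mk.inj h2).2.symm
  refine Set.infinite_of_injective_forall_mem hinj fun j => ⟨Nat.prime_nth_prime _, ?_⟩
  show (s (Nat.count Nat.Prime (Nat.nth Nat.Prime (n j)))).1 = e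
  rw [Nat.count_nth_of_infinite Nat.infinite_setOfPred_prime, hn j]

/-- There is a torsion-free abelian group `G` which is transitive, hence Krylov transitive and
weakly transitive, such that `G ⊕ G` is not weakly transitive. -/
theorem result : ∃ (G : Type) (_ : AddCommGroup G),
    (∀ (n : ℕ) (x : G), n ≠ 0 → n • x = 0 → x = 0) ∧
    IsTransitive G ∧ IsKrylovTransitive G ∧ IsWeaklyTransitive G ∧
    ¬ IsWeaklyTransitive (G × G) := by
  obtain ⟨x, hx⟩ := exists_assignment
  have htrans : IsTransitive (GG x) := by
    intro a b hab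
    rcases transitive_pm hx a b hab with h | h
    · exact ⟨AddEquiv.refl _, h.symm⟩
    · exact ⟨AddEquiv.neg _, h.symm⟩
  refine ⟨GG x, inferInstance, torsion_free, htrans, ?_, ?_, ?_⟩
  · intro a b hab
    obtain ⟨η, hη⟩ := htrans a b hab
    exact ⟨η.toAddMonoidHom, hη⟩
  · intro a b ⟨φ, hφ⟩ ⟨ψ, hψ⟩
    refine htrans a b (le_antisymm ?_ ?_)
    · rw [chi_le_iff]
      rintro p _ k ⟨z, rfl⟩
      exact ⟨φ z, by rw [← hφ, map_nsmul]⟩
    · rw [chi_le_iff]
      rintro p _ k ⟨z, rfl⟩
      exact ⟨ψ z, by rw [← hψ, map_nsmul]⟩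
  · intro hw
    -- multiplication by `X`
    let mX : GG x →+ GG x :=
      { toFun := fun g => ⟨io X * g, smul_mem X g.2⟩
        map_zero' := Subtype.ext (by simp)
        map_add' := fun a b => Subtype.ext (by
          change io X * ((a : ℚ[X]) + b) = io X * a + io X * b
          ring) }
    have hmX : mX (el x 5) = 5 • el x X := by
      apply Subtype.ext
      rw [coe_nsmul']
      change io X * io 5 = _ * io X
      rw [map_ofNat]
      push_cast
      ring
    obtain ⟨η, hη⟩ := hw (el x X, el x 5) (2 • el x X, el x 5)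
      ⟨((2 • AddMonoidHom.id (GG x)).comp (AddMonoidHom.fst _ _)).prod (AddMonoidHom.snd _ _), by
        simp⟩
      ⟨((3 • AddMonoidHom.id (GG x)).comp (AddMonoidHom.fst _ _) -
          mX.comp (AddMonoidHom.snd _ _)).prod (AddMonoidHom.snd _ _), by
        simp only [AddMonoidHom.prod_apply, AddMonoidHom.coe_snd, Prod.mk.injEq, and_true]
        rw [AddMonoidHom.sub_apply]
        simp only [AddMonoidHom.comp_apply, AddMonoidHom.coe_fst, AddMonoidHom.coe_snd]
        rw [hmX, AddMonoidHom.smul_apply, AddMonoidHom.id_apply, smul_smul, ← sub_eq_zero]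
        have : (3 * 2) • el x X - 5 • el x X - el x X = (0 : GG x) := by
          have h6 : (3 * 2) • el x X = 5 • el x X + el x X := by
            rw [← succ_nsmul]
          rw [h6]
          abel
        exact this⟩
    -- the matrix of an endomorphism of the square
    have hmat : ∀ f : (GG x × GG x) →+ (GG x × GG x), ∃ M : Matrix (Fin 2) (Fin 2) ℤ[X],
        ∀ u v : GG x, ((f (u, v)).1 : ℚ[X]) = io (M 0 0) * u + io (M 0 1) * v ∧
          ((f (u, v)).2 : ℚ[X]) = io (M 1 0) * u + io (M 1 1) * v := by
      intro f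
      obtain ⟨a, ha⟩ := endo hx (((AddMonoidHom.fst _ _).comp f).comp (AddMonoidHom.inl (GG x) (GG x)))
      obtain ⟨b, hb⟩ := endo hx (((AddMonoidHom.fst _ _).comp f).comp (AddMonoidHom.inr (GG x) (GG x)))
      obtain ⟨c, hc⟩ := endo hx (((AddMonoidHom.snd _ _).comp f).comp (AddMonoidHom.inl (GG x) (GG x)))
      obtain ⟨d, hd⟩ := endo hx (((AddMonoidHom.snd _ _).comp f).comp (AddMonoidHom.inr (GG x) (GG x)))
      refine ⟨!![a, b; c, d], fun u v => ?_⟩
      have huv : f (u, v) = f (u, 0) + f (0, v) := by
        rw [← map_add]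
        simp
      rw [huv]
      refine ⟨?_, ?_⟩
      · have h1 := ha u
        have h2 := hb v
        simp only [AddMonoidHom.comp_apply, AddMonoidHom.coe_fst, AddMonoidHom.inl_apply,
          AddMonoidHom.inr_apply] at h1 h2
        simp [h1, h2]
      · have h1 := hc u
        have h2 := hd v
        simp only [AddMonoidHom.comp_apply, AddMonoidHom.coe_snd, AddMonoidHom.inl_apply,
          AddMonoidHom.inr_apply] at h1 h2
        simp [h1, h2]
    obtain ⟨M, hM⟩ := hmat η.toAddMonoidHom
    obtain ⟨M', hM'⟩ := hmat η.symm.toAddMonoidHom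
    have hprod : M' * M = 1 := by
      have key : ∀ u v : GG x, (u : ℚ[X]) = io ((M' * M) 0 0) * u + io ((M' * M) 0 1) * v ∧
          (v : ℚ[X]) = io ((M' * M) 1 0) * u + io ((M' * M) 1 1) * v := by
        intro u v
        have h1 := hM' (η (u, v)).1 (η (u, v)).2
        have h2 := hM u v
        have h3 : η.symm.toAddMonoidHom ((η (u, v)).1, (η (u, v)).2) = (u, v) := by
          change η.symm (η (u, v)) = (u, v)
          exact η.symm_apply_apply _
        rw [h3] at h1
        have h2' : (((η (u, v)).1 : GG x) : ℚ[X]) = io (M 0 0) * u + io (M 0 1) * v := h2.1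
        have h2'' : (((η (u, v)).2 : GG x) : ℚ[X]) = io (M 1 0) * u + io (M 1 1) * v := h2.2
        rw [h2', h2''] at h1
        simp only [Matrix.mul_apply, Fin.sum_univ_two, map_add, map_mul]
        refine ⟨h1.1.trans (by ring), h1.2.trans (by ring)⟩
      have e1 : ((el x 1 : GG x) : ℚ[X]) = 1 := by simp [el]
      have k10 := key (el x 1) 0
      have k01 := key 0 (el x 1)
      simp only [e1, ZeroMemClass.coe_zero, mul_one, mul_zero, add_zero, zero_add] at k10 k01
      refine Matrix.ext fun i j => ?_
      fin_cases i <;> fin_cases j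
      · have h := io_inj (show io ((M' * M) 0 0) = io 1 by rw [map_one]; exact k10.1.symm)
        simpa using h
      · have h := io_inj (show io ((M' * M) 0 1) = io 0 by rw [map_zero]; exact k01.1.symm)
        simpa using h
      · have h := io_inj (show io ((M' * M) 1 0) = io 0 by rw [map_zero]; exact k10.2.symm)
        simpa using h
      · have h := io_inj (show io ((M' * M) 1 1) = io 1 by rw [map_one]; exact k01.2.symm)
        simpa using h
    have hrow := hM (el x X) (el x 5)
    have hη' : η.toAddMonoidHom (el x X, el x 5) = (2 • el x X, el x 5) := hη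
    rw [hη'] at hrow
    simp only [coe_nsmul'] at hrow
    have r1 : (2 : ℤ[X]) * X = M 0 0 * X + M 0 1 * 5 := by
      apply io_inj
      have h : ((2 : ℕ) : ℚ[X]) * io X = io (M 0 0) * io X + io (M 0 1) * io 5 := hrow.1
      rw [map_mul, map_add, map_mul, map_mul, ← h, map_ofNat]
      norm_num
    have r2 : (5 : ℤ[X]) = M 1 0 * X + M 1 1 * 5 := by
      apply io_inj
      have h : io 5 = io (M 1 0) * io X + io (M 1 1) * io 5 := hrow.2
      rw [map_add, map_mul, map_mul, ← h]
    have c1 := congrArg (fun f : ℤ[X] => f.coeff 0) r1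
    have c2 := congrArg (fun f : ℤ[X] => f.coeff 1) r1
    have c3 := congrArg (fun f : ℤ[X] => f.coeff 0) r2
    have h2 : (2 : ℤ[X]) * X = C 2 * X := by simp
    have h5' : (5 : ℤ[X]) = C 5 := by simp
    simp only [h2, h5', coeff_add, coeff_mul_C, coeff_mul_X, coeff_mul_X_zero, coeff_C_zero,
      zero_add] at c1 c2 c3
    -- determinant at `X = 0`
    have hdet : (M'.map (fun f : ℤ[X] => f.coeff 0)).det * (M.map (fun f : ℤ[X] => f.coeff 0)).det = 1 := by
      have h3 : (M'.map constantCoeff) * (M.map constantCoeff) = 1 := by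
        rw [← Matrix.map_mul, hprod]
        simp
      have h4 := congrArg Matrix.det h3
      rw [Matrix.det_mul, Matrix.det_one] at h4
      exact h4
    have hu : IsUnit (M.map (fun f : ℤ[X] => f.coeff 0)).det := IsUnit.of_mul_eq_one_right _ hdet
    rw [Matrix.det_fin_two] at hu
    simp only [Matrix.map_apply] at hu
    have e0 : (M 0 1).coeff 0 = 0 := by omega
    have e1 : (M 1 1).coeff 0 = 1 := by omega
    rw [e0, e1, zero_mul, mul_one, sub_zero] at hu
    rcases Int.isUnit_iff.1 hu with h | h <;> omega

end Pool.Agent.Results.MP_1abb56_al.SquareNotWeaklyTransitive
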